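import Pool.Agent.Helper11.M3.Goals4

/-!
# Project M3 (MP_fc6b1e_nt), packet Q_PSM: bound for the small moduli for a fixed `b`
-/

set_option autoImplicit false

namespace Pool.Agent.Helper56.M3

open Finset Pool.Agent.Helper17.PP Pool.Agent.Helper17.PP0 Pool.Agent.Helper17.PP2
open Pool.Agent.Helper11.M3

section

variable {p : ℕ} {B B₀ k U Λ C : Type} [Field k] [Fintype k] [Algebra (ZMod p) k]
    [AddCommGroup U] [Module k U] [Fintype U] [AddCommGroup Λ] [Module k Λ] [Fintype Λ]
    [AddCommGroup C] (S : Sys p B B₀ k U Λ C)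

/-- The summand, with the label function `c` of all the primes and the modulus `D`. -/
noncomputable def smd (ψ : AddChar k ℂ) (χ : AddChar Λ ℂ) (b D : Finset B) (x : U)
    (c y : B → k) : ℂ :=
  χ (S.lam₀ x + ∑ q' ∈ b, S.lam q' (c q')) * ∏ q' ∈ D, ψ (y q' * S.R b x c q')

theorem norm_smd (ψ : AddChar k ℂ) (χ : AddChar Λ ℂ) (b D : Finset B) (x : U) (c y : B → k) :
    ‖smd S ψ χ b D x c y‖ ≤ 1 := by
  unfold smd
  rw [norm_mul, norm_prod, AddChar.norm_apply, one_mul]
  refine le_of_eq (Finset.prod_eq_one fun q' _ => ?_)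
  rw [AddChar.norm_apply]

theorem smd_add (ψ : AddChar k ℂ) (χ : AddChar Λ ℂ) (b D : Finset B) (x u : U) (c y : B → k) :
    smd S ψ χ b D (x + u) c y = S.fU ψ χ D y u * smd S ψ χ b D x c y := by
  unfold smd Sys.fU
  have h1 : S.lam₀ (x + u) + ∑ q' ∈ b, S.lam q' (c q') =
      S.lam₀ u + (S.lam₀ x + ∑ q' ∈ b, S.lam q' (c q')) := by
    rw [map_add]
    abel
  have h2 : ∀ q', y q' * S.R b (x + u) c q' = y q' * S.res q' u + y q' * S.R b x c q' := by
    intro q'
    unfold Sys.R
    rw [map_add]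
    ring
  rw [h1, AddChar.map_add_eq_mul]
  have h3 : ∏ q' ∈ D, ψ (y q' * S.R b (x + u) c q') =
      (∏ q' ∈ D, ψ (y q' * S.res q' u)) * ∏ q' ∈ D, ψ (y q' * S.R b x c q') := by
    rw [← Finset.prod_mul_distrib]
    refine Finset.prod_congr rfl fun q' _ => ?_
    rw [h2, AddChar.map_add_eq_mul]
  rw [h3]
  ring

open Classical in
/-- The function with the value `z` at `r`. -/
noncomputable def sgl (r : B) (z : k) : B → k := fun q' => if q' = r then z else 0

theorem sgl_ne {r q' : B} (h : q' ≠ r) (z : k) : sgl r z q' = 0 := by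
  classical
  unfold sgl
  rw [if_neg h]

theorem R_addc (b : Finset B) (x : U) (c : B → k) {r : B} (hr : r ∈ b) (z : k) {q' : B}
    (hq' : q' ≠ r) :
    S.R b x (fun s => c s + sgl r z s) q' = S.R b x c q' + z * S.a q' r := by
  classical
  unfold Sys.R
  have h3 : sgl r z q' = 0 := sgl_ne hq' z
  have h4 : ∑ s ∈ b.erase q', (c s + sgl r z s) * S.a q' s =
      (∑ s ∈ b.erase q', c s * S.a q' s) + z * S.a q' r := by
    have h5 : ∀ s ∈ b.erase q', (c s + sgl r z s) * S.a q' s =
        c s * S.a q' s + (if s = r then z * S.a q' r else 0) := by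
      intro s _
      rw [add_mul]
      congr 1
      unfold sgl
      by_cases h6 : s = r
      · rw [if_pos h6, if_pos h6, h6]
      · rw [if_neg h6, if_neg h6, zero_mul]
    rw [Finset.sum_congr rfl h5, Finset.sum_add_distrib, Finset.sum_ite_eq', if_pos]
    exact Finset.mem_erase.2 ⟨hq'.symm, hr⟩
  simp only [h3, add_zero]
  rw [h4]
  ring

theorem smd_addc (ψ : AddChar k ℂ) (χ : AddChar Λ ℂ) (b D : Finset B) (x : U) (c y : B → k)
    {r : B} (hr : r ∈ b) (hrD : r ∉ D) (z : k) :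
    smd S ψ χ b D x (fun s => c s + sgl r z s) y = S.fB ψ χ D y r z * smd S ψ χ b D x c y := by
  classical
  unfold smd Sys.fB
  have h1 : S.lam₀ x + ∑ q' ∈ b, S.lam q' (c q' + sgl r z q') =
      S.lam r z + (S.lam₀ x + ∑ q' ∈ b, S.lam q' (c q')) := by
    have h5 : ∀ s ∈ b, S.lam s (c s + sgl r z s) =
        S.lam s (c s) + (if s = r then S.lam r z else 0) := by
      intro s _
      rw [map_add]
      congr 1
      unfold sgl
      by_cases h6 : s = r
      · rw [if_pos h6, if_pos h6, h6]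
      · rw [if_neg h6, if_neg h6, map_zero]
    rw [Finset.sum_congr rfl h5, Finset.sum_add_distrib, Finset.sum_ite_eq', if_pos hr]
    abel
  rw [h1, AddChar.map_add_eq_mul]
  have h3 : ∏ q' ∈ D, ψ (y q' * S.R b x (fun s => c s + sgl r z s) q') =
      (∏ q' ∈ D, ψ (y q' * (z * S.a q' r))) * ∏ q' ∈ D, ψ (y q' * S.R b x c q') := by
    rw [← Finset.prod_mul_distrib]
    refine Finset.prod_congr rfl fun q' hq' => ?_
    rw [R_addc S b x c hr z (fun h => hrD (h ▸ hq')), mul_add, AddChar.map_add_eq_mul, mul_comm]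
  rw [h3]
  ring

theorem mem_rs₄ {b : Finset B} {q P₁ r : B} (hr : r ∈ rs₄ S b q P₁) :
    r ∈ b ∧ r ≠ q ∧ r ≠ P₁ ∧ S.spl r ∧ S.bl r < S.bl q := by
  classical
  unfold rs₄ at hr
  obtain ⟨h1, h2⟩ := Finset.mem_filter.1 hr
  obtain ⟨h3, h4⟩ := Finset.mem_erase.1 h1
  obtain ⟨h5, h6⟩ := Finset.mem_erase.1 h4
  exact ⟨h6, h5, h3, h2.1, h2.2⟩

theorem mem_sp {b : Finset B} {q P₁ r : B} :
    r ∈ sp S b q P₁ ↔ r ∈ b ∧ r ≠ q ∧ r ≠ P₁ ∧ S.spl r := by
  classical
  unfold sp
  rw [Finset.mem_filter, Finset.mem_erase, Finset.mem_erase]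
  tauto

theorem cutd_add (b : Finset B) (q P₁ : B) (t : k) (c : B → k) {r : B}
    (hr : r ∈ rs₄ S b q P₁) (z : k) (q' : B) :
    cutd S (S.bl q) q P₁ t (c + sgl r z) q' = cutd S (S.bl q) q P₁ t c q' + sgl r z q' := by
  classical
  obtain ⟨-, hrq, hrP, hrs, hrb⟩ := mem_rs₄ S hr
  unfold cutd
  by_cases h1 : q' = q
  · rw [if_pos h1, if_pos h1, sgl_ne (by rw [h1]; exact hrq.symm), add_zero]
  · rw [if_neg h1, if_neg h1]
    by_cases h2 : q' = P₁
    · rw [if_pos h2, if_pos h2, sgl_ne (by rw [h2]; exact hrP.symm), add_zero]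
    · rw [if_neg h2, if_neg h2]
      by_cases h3 : S.spl q' ∧ S.bl q' < S.bl q
      · rw [if_pos h3, if_pos h3]
        rfl
      · rw [if_neg h3, if_neg h3, sgl_ne, add_zero]
        rintro rfl
        exact h3 ⟨hrs, hrb⟩

theorem nm_pos (D : Finset B) : 0 < S.nm D := by
  unfold Sys.nm
  exact Finset.prod_pos fun q _ => lt_of_lt_of_le (by norm_num) (S.two_le q)

open Classical in
/-- The primes of `sp b q P₁` where `y` is not zero. -/
noncomputable def DD (b : Finset B) (q P₁ : B) (y : B → k) : Finset B :=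
  (sp S b q P₁).filter fun q' ↦ y q' ≠ 0

theorem ph_eq (ψ : AddChar k ℂ) (χ : AddChar Λ ℂ) {b : Finset B} {q P₁ : B} (hq : Wv S b q)
    (x : U) (c y : B → k) :
    ph S ψ χ b x c (cute S (S.bl q) q P₁ 0 0 y) = smd S ψ χ b (DD S b q P₁ y) x c y := by
  classical
  unfold ph smd
  congr 1
  have hsub : DD S b q P₁ y ⊆ b := by
    intro r hr
    unfold DD at hr
    exact ((mem_sp S).1 (Finset.mem_filter.1 hr).1).1
  rw [← Finset.prod_subset hsub]
  · refine Finset.prod_congr rfl fun r hr => ?_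
    unfold DD at hr
    obtain ⟨h1, h2⟩ := Finset.mem_filter.1 hr
    obtain ⟨h3, h4, h5, h6⟩ := (mem_sp S).1 h1
    have h7 : cute S (S.bl q) q P₁ 0 0 y r = y r := by
      unfold cute
      rw [if_neg h4, if_neg h5, if_pos ⟨h6, hq.uniq r h3 h4 h6⟩]
    rw [h7]
  · intro r hr hrD
    have h7 : cute S (S.bl q) q P₁ 0 0 y r = 0 := by
      unfold cute
      by_cases h1 : r = q
      · rw [if_pos h1]
      · rw [if_neg h1]
        by_cases h2 : r = P₁
        · rw [if_pos h2]
        · rw [if_neg h2]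
          by_cases h3 : S.spl r ∧ S.bl r ≠ S.bl q
          · rw [if_pos h3]
            by_contra h4
            refine hrD ?_
            unfold DD
            exact Finset.mem_filter.2 ⟨(mem_sp S).2 ⟨hr, h1, h2, h3.1⟩, h4⟩
          · rw [if_neg h3]
    rw [h7, zero_mul, AddChar.map_zero_eq_one]

theorem nm_DD (e : B → k) (b : Finset B) (q P₁ : B) (t : k) (c y : B → k) :
    S.nm (DD S b q P₁ y) = S.nm (D₁ S e b q P₁ t c y) * S.nm (D₂ S e b q P₁ t c y) := by
  classical
  have h1 : DD S b q P₁ y = D₁ S e b q P₁ t c y ∪ D₂ S e b q P₁ t c y := by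
    ext r
    unfold DD D₁ D₂
    rw [Finset.mem_union, Finset.mem_filter, Finset.mem_filter, Finset.mem_filter]
    tauto
  have h2 : Disjoint (D₁ S e b q P₁ t c y) (D₂ S e b q P₁ t c y) := by
    rw [Finset.disjoint_left]
    intro r h3 h4
    unfold D₁ at h3
    unfold D₂ at h4
    exact (Finset.mem_filter.1 h3).2.2 (Finset.mem_filter.1 h4).2.2
  unfold Sys.nm
  rw [h1, Finset.prod_union h2]

theorem FA_lt {e : B → k} {I : ℕ} {b : Finset B} {q P₁ : B} {t : k} {χ : AddChar Λ ℂ}
    {c y : B → k} (h : FA S e I b q P₁ t χ c y) : S.nm (DD S b q P₁ y) < 2 ^ (2 * I) := by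
  obtain ⟨-, h1, h2⟩ := h
  have h3 : S.nm (D₁ S e b q P₁ t c y) < 2 ^ I := Nat.lt_pow_of_log_lt (by norm_num) h1
  have h4 : S.nm (D₂ S e b q P₁ t c y) < 2 ^ I := Nat.lt_pow_of_log_lt (by norm_num) h2
  rw [nm_DD S e b q P₁ t c y, two_mul, pow_add]
  exact Nat.mul_lt_mul'' h3 h4

theorem FA_ne {e : B → k} {I : ℕ} {b : Finset B} {q P₁ : B} {t : k} {χ : AddChar Λ ℂ}
    {c y : B → k} (h : FA S e I b q P₁ t χ c y) : (DD S b q P₁ y).Nonempty ∨ χ ≠ 1 := by
  classical
  obtain ⟨h1 | ⟨r, hr, hy⟩, -⟩ := h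
  · exact Or.inr h1
  · left
    refine ⟨r, ?_⟩
    unfold DD
    exact Finset.mem_filter.2 ⟨hr, hy⟩

theorem FA_add (e : B → k) (I : ℕ) (b : Finset B) (q P₁ : B) (t : k) (χ : AddChar Λ ℂ)
    (c y : B → k) {r : B} (hr : r ∈ rs₄ S b q P₁) (hy : y r = 0) (z : k) :
    FA S e I b q P₁ t χ (c + sgl r z) y ↔ FA S e I b q P₁ t χ c y := by
  classical
  have h0 : ∀ q', y q' ≠ 0 →
      cutd S (S.bl q) q P₁ t (c + sgl r z) q' = cutd S (S.bl q) q P₁ t c q' := by
    intro q' h
    rw [cutd_add S b q P₁ t c hr z q', sgl_ne, add_zero]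
    rintro rfl
    exact h hy
  have h1 : D₁ S e b q P₁ t (c + sgl r z) y = D₁ S e b q P₁ t c y := by
    unfold D₁
    refine Finset.filter_congr fun q' _ => ?_
    refine and_congr_right fun h => ?_
    rw [h0 q' h]
  have h2 : D₂ S e b q P₁ t (c + sgl r z) y = D₂ S e b q P₁ t c y := by
    unfold D₂
    refine Finset.filter_congr fun q' _ => ?_
    refine and_congr_right fun h => ?_
    rw [h0 q' h]
  unfold FA
  rw [h1, h2]

end

open Classical in
theorem q_psm (hlab : C_LAB) : Pool.Agent.Helper11.M3.Q_PSM := by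
  intro p _ B B₀ k U Λ C _ _ _ _ _ _ _ _ _ _ S ψ e I P b q P₁ t hbP hq _ _
  obtain ⟨hcard, -, h3, -, -⟩ := hlab B k P
  have hQ : (0 : ℝ) < (Fintype.card k : ℝ) := by exact_mod_cast Fintype.card_pos
  have hL : (0 : ℝ) < ((lab k P).card : ℝ) := by
    rw [hcard]
    push_cast
    positivity
  have hΛ : (1 : ℝ) ≤ (Fintype.card Λ : ℝ) := by exact_mod_cast Fintype.card_pos
  set W : AddChar Λ ℂ → (B → k) → ℂ := fun χ y => ∑ x : U, ∑ c ∈ lab k P,
    if FA S e I b q P₁ t χ c y then
      smd S ψ χ b (DD S b q P₁ y) x (cutd S (S.bl q) q P₁ t c) y else 0 with hW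
  set G : AddChar Λ ℂ → Finset (B → k) := fun χ => (lab k P).filter fun y ↦
        ((DD S b q P₁ y).Nonempty ∨ χ ≠ 1) ∧
        S.nm (DD S b q P₁ y) < 2 ^ (2 * I) ∧
        (∀ x : U, S.fU ψ χ (DD S b q P₁ y) y x = 1) ∧
        ∀ q'' ∈ rs₄ S b q P₁, y q'' = 0 → ∀ z : k,
          S.fB ψ χ (DD S b q P₁ y) y q'' z = 1 with hG
  have hful : ful₄ S ψ P b q P₁ t 0 0 (FA S e I b q P₁ t) =
      ((Fintype.card k : ℂ) ^ (rs₄ S b q P₁).card / (Fintype.card Λ * ((lab k P).card : ℂ) ^ 2)) *
        ∑ χ : AddChar Λ ℂ, ∑ y ∈ lab k P, W χ y := by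
    unfold ful₄
    congr 1
    rw [Finset.sum_comm]
    refine Finset.sum_congr rfl fun χ _ => ?_
    have h5 : ∀ x ∈ (Finset.univ : Finset U), ∑ c ∈ lab k P,
        ∑ y ∈ lab k P with FA S e I b q P₁ t χ c y,
          ph S ψ χ b x (cutd S (S.bl q) q P₁ t c) (cute S (S.bl q) q P₁ 0 0 y) =
        ∑ y ∈ lab k P, ∑ c ∈ lab k P, if FA S e I b q P₁ t χ c y then
          smd S ψ χ b (DD S b q P₁ y) x (cutd S (S.bl q) q P₁ t c) y else 0 := by
      intro x _
      rw [Finset.sum_comm]
      refine Finset.sum_congr rfl fun c _ => ?_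
      rw [Finset.sum_filter]
      refine Finset.sum_congr rfl fun y _ => ?_
      rw [ph_eq S ψ χ hq]
    rw [Finset.sum_congr rfl h5, Finset.sum_comm]
  have hzero : ∀ χ : AddChar Λ ℂ, ∀ y ∈ lab k P, y ∉ G χ → W χ y = 0 := by
    intro χ y hy hyG
    rw [hW]
    by_cases hn : (DD S b q P₁ y).Nonempty ∨ χ ≠ 1
    · by_cases hm : S.nm (DD S b q P₁ y) < 2 ^ (2 * I)
      · by_cases hu : ∀ x : U, S.fU ψ χ (DD S b q P₁ y) y x = 1
        · have hb : ¬ ∀ q'' ∈ rs₄ S b q P₁, y q'' = 0 → ∀ z : k,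
              S.fB ψ χ (DD S b q P₁ y) y q'' z = 1 := by
            intro h
            exact hyG (Finset.mem_filter.2 ⟨hy, hn, hm, hu, h⟩)
          push Not at hb
          obtain ⟨r, hr, hry, z, hz⟩ := hb
          have hrb : r ∈ b := (mem_rs₄ S hr).1
          have hrD : r ∉ DD S b q P₁ y := by
            intro h
            unfold DD at h
            exact (Finset.mem_filter.1 h).2 hry
          refine Finset.sum_eq_zero fun x _ => ?_
          refine h3 (fun c => if FA S e I b q P₁ t χ c y then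
            smd S ψ χ b (DD S b q P₁ y) x (cutd S (S.bl q) q P₁ t c) y else 0) _ hz (sgl r z)
            ?_ fun c _ => ?_
          · rw [mem_lab]
            intro s hs
            refine sgl_ne ?_ z
            rintro rfl
            exact hs (hbP hrb)
          · have h5 : cutd S (S.bl q) q P₁ t (c + sgl r z) =
                fun s => cutd S (S.bl q) q P₁ t c s + sgl r z s :=
              funext fun s => cutd_add S b q P₁ t c hr z s
            by_cases hF : FA S e I b q P₁ t χ c y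
            · have hF' := (FA_add S e I b q P₁ t χ c y hr hry z).2 hF
              show (if FA S e I b q P₁ t χ (c + sgl r z) y then _ else _) = _ *
                (if FA S e I b q P₁ t χ c y then _ else _)
              rw [if_pos hF, if_pos hF', h5]
              exact smd_addc S ψ χ b _ x _ y hrb hrD z
            · have hF' : ¬ FA S e I b q P₁ t χ (c + sgl r z) y := fun h =>
                hF ((FA_add S e I b q P₁ t χ c y hr hry z).1 h)
              show (if FA S e I b q P₁ t χ (c + sgl r z) y then _ else _) = _ *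
                (if FA S e I b q P₁ t χ c y then _ else _)
              rw [if_neg hF, if_neg hF', mul_zero]
        · push Not at hu
          obtain ⟨u, hu⟩ := hu
          show ∑ x : U, ∑ c ∈ lab k P, (if FA S e I b q P₁ t χ c y then _ else _) = 0
          rw [Finset.sum_comm]
          refine Finset.sum_eq_zero fun c _ => ?_
          by_cases hF : FA S e I b q P₁ t χ c y
          · simp only [if_pos hF]
            have h5 : ∑ x : U, smd S ψ χ b (DD S b q P₁ y) (x + u)
                (cutd S (S.bl q) q P₁ t c) y =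
                ∑ x : U, smd S ψ χ b (DD S b q P₁ y) x (cutd S (S.bl q) q P₁ t c) y :=
              Equiv.sum_comp (Equiv.addRight u) fun x =>
                smd S ψ χ b (DD S b q P₁ y) x (cutd S (S.bl q) q P₁ t c) y
            simp only [smd_add] at h5
            rw [← Finset.mul_sum] at h5
            by_contra hne
            exact hu (mul_right_cancel₀ hne (by rw [h5, one_mul]))
          · simp only [if_neg hF]
            exact Finset.sum_const_zero
      · refine Finset.sum_eq_zero fun x _ => Finset.sum_eq_zero fun c _ => ?_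
        exact if_neg fun h => hm (FA_lt S h)
    · refine Finset.sum_eq_zero fun x _ => Finset.sum_eq_zero fun c _ => ?_
      exact if_neg fun h => hn (FA_ne S h)
  have hnorm : ∀ χ : AddChar Λ ℂ, ∀ y : B → k, ‖W χ y‖ ≤
      (Fintype.card U : ℝ) * (lab k P).card := by
    intro χ y
    rw [hW]
    refine (norm_sum_le _ _).trans ?_
    have h5 : ∀ x ∈ (Finset.univ : Finset U), ‖∑ c ∈ lab k P,
        if FA S e I b q P₁ t χ c y then
          smd S ψ χ b (DD S b q P₁ y) x (cutd S (S.bl q) q P₁ t c) y else 0‖ ≤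
        ((lab k P).card : ℝ) := by
      intro x _
      refine (norm_sum_le _ _).trans ?_
      have h6 : ∀ c ∈ lab k P, ‖if FA S e I b q P₁ t χ c y then
          smd S ψ χ b (DD S b q P₁ y) x (cutd S (S.bl q) q P₁ t c) y else 0‖ ≤ 1 := by
        intro c _
        by_cases hF : FA S e I b q P₁ t χ c y
        · rw [if_pos hF]
          exact norm_smd S ψ χ b _ x _ y
        · rw [if_neg hF, norm_zero]
          exact zero_le_one
      refine (Finset.sum_le_sum h6).trans ?_
      rw [Finset.sum_const, nsmul_eq_mul, mul_one]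
    refine (Finset.sum_le_sum h5).trans ?_
    rw [Finset.sum_const, nsmul_eq_mul, Finset.card_univ]
  have htot : ‖∑ χ : AddChar Λ ℂ, ∑ y ∈ lab k P, W χ y‖ ≤
      (∑ χ : AddChar Λ ℂ, ((G χ).card : ℝ)) * ((Fintype.card U : ℝ) * (lab k P).card) := by
    refine (norm_sum_le _ _).trans ?_
    rw [Finset.sum_mul]
    refine Finset.sum_le_sum fun χ _ => ?_
    have hGY : G χ ⊆ lab k P := Finset.filter_subset _ _
    rw [← Finset.sum_subset hGY (hzero χ)]
    refine (norm_sum_le _ _).trans ?_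
    refine (Finset.sum_le_sum fun y _ => hnorm χ y).trans ?_
    rw [Finset.sum_const, nsmul_eq_mul]
  have hcoef : ‖(Fintype.card k : ℂ) ^ (rs₄ S b q P₁).card /
      (Fintype.card Λ * ((lab k P).card : ℂ) ^ 2)‖ ≤
      (Fintype.card k : ℝ) ^ (rs₄ S b q P₁).card / ((lab k P).card : ℝ) ^ 2 := by
    rw [norm_div, norm_pow, norm_mul, norm_pow, Complex.norm_natCast, Complex.norm_natCast,
      Complex.norm_natCast]
    refine div_le_div_of_nonneg_left (by positivity) (by positivity) ?_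
    nlinarith [pow_pos hL 2]
  have key : ∀ A u Q L : ℝ, 0 < L → Q / L ^ 2 * (A * (u * L)) = u * Q / L * A := by
    intro A u Q L h
    field_simp
  have hfin : (Fintype.card k : ℝ) ^ (rs₄ S b q P₁).card / ((lab k P).card : ℝ) ^ 2 *
      ((∑ χ : AddChar Λ ℂ, ((G χ).card : ℝ)) * ((Fintype.card U : ℝ) * (lab k P).card)) =
      (Fintype.card U * (Fintype.card k : ℝ) ^ (rs₄ S b q P₁).card / (lab k P).card) *
        ∑ χ : AddChar Λ ℂ, ((G χ).card : ℝ) := key _ _ _ _ hL
  rw [hful, norm_mul]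
  refine (mul_le_mul hcoef htot (norm_nonneg _) (by positivity)).trans (le_of_eq ?_)
  exact hfin

end Pool.Agent.Helper56.M3
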